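import Pool.Agent.Helper75_CN2.Use

/-!
Squad CN2, modules K_MMM and K_BE2S.
-/

noncomputable section

namespace Pool.Agent.CN2.H75

open Pool.Agent.H25Cong Pool.Agent.CON Pool.Agent.CN2

theorem rk_md3 {τ : Ty} (h : τ.md3) : 3 ≤ τ.rk := by
  cases τ with
  | A k => exact le_of_eq (Eq.symm h)
  | D k => exact le_trans (by norm_num) (le_of_eq (Eq.symm h))
  | E k => exact h.elim

theorem rk_mid {τ : Ty} (h : τ.mid) : 2 ≤ τ.rk := by
  cases τ with
  | A k =>
    rcases h with h | h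
    · exact le_of_eq h.symm
    · exact le_trans (by norm_num) (le_of_eq h.symm)
  | D k => exact le_trans (by norm_num) (le_of_eq (Eq.symm h))
  | E k => exact h.elim

theorem mid_of_md3 {τ : Ty} (h : τ.md3) : τ.mid := by
  cases τ with
  | A k => exact Or.inr h
  | D k => exact h
  | E k => exact h.elim

theorem rk_big {M : Type} [AddCommGroup M] {b : M → M → ℤ} {C : Set M} {s : ℤ} {τ : Ty}
    (hT : HasTy b C s τ) (h : τ.big) : 4 ≤ τ.rk := by
  cases τ with
  | A k => exact h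
  | D k => exact le_trans (by norm_num) (show 5 ≤ k from h)
  | E k =>
    rcases hT.1 with h | h | h
    · exact le_trans (by norm_num) (le_of_eq h.symm)
    · exact le_trans (by norm_num) (le_of_eq h.symm)
    · exact le_trans (by norm_num) (le_of_eq h.symm)

theorem even_sub_one {s : ℤ} (h : ¬ (2 : ℤ) ∣ s) : (2 : ℤ) ∣ 1 - s := by
  omega

/-- the condition on the functional in the case x = omega, mu = s -/
theorem par_self {M : Type} [AddCommGroup M] {b : M → M → ℤ} {C : Set M} {s : ℤ} {α : M}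
    (h : PD b) (hC : Irr b C s) (o : ¬ (2 : ℤ) ∣ s) (hα : α ∈ C) :
    ∀ y ∈ AddSubgroup.closure C, 2 * s ∣ b y α - s * b y α := by
  intro y hy
  have h1 : s ∣ b y α := by
    induction hy using AddSubgroup.closure_induction with
    | mem y hy => exact hC.dvd y hy α hα
    | zero => rw [zero_left h]; exact dvd_zero _
    | add y z _ _ h1 h2 => rw [h.add_left]; exact dvd_add h1 h2
    | neg y _ h1 => rw [neg_left h]; exact (dvd_neg).mpr h1
  obtain ⟨c, hc⟩ := h1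
  obtain ⟨d, hd⟩ := even_sub_one o
  refine ⟨c * d, ?_⟩
  rw [hc]
  calc s * c - s * (s * c) = s * c * (1 - s) := by ring
    _ = 2 * s * (c * d) := by rw [hd]; ring

/-- the information of J_ROOT -/
abbrev PR {M : Type} [AddCommGroup M] (b : M → M → ℤ) (C : Set M) (s : ℤ) (α : M) (ρ : ℤ) (t : M) :
    Prop :=
  (ρ = 2 * s ∧ (t = α ∨ t = -α)) ∨ (ρ = 6 * s ∧ b t α = 0 ∧ Rk C 2 ∧ ¬ Rk C 3)

theorem k_mmm : X_CMP → X_PAR → J_ROOT → J_RAD → E_J1 → E_NON → E_N2 → T_RAD → T_RK → K_MMM := by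
  intro hX hP hR hRad hJ1 hN hN2 hTR hRK M _ b k C s τ h hC hb i1 i2 i3 h12 h13 h23 o1 m1 o2 m2 o3
    m3
  obtain ⟨r, hr, hr2, hrn⟩ := hTR M b (C i1) (s i1) (τ i1) h (hC.irr i1) o1 (hC.ty i1) m1
  have J1 := hRad M b (C i1) (s i1) r h (hC.irr i1) o1 hr hr2 hrn
  obtain ⟨α, hα, α', hα', hαα⟩ := hN M b (C i2) (s i2) h (hC.irr i2)
    ((hRK M b (C i2) (s i2) (τ i2) h (hC.irr i2) (hC.ty i2) 2).mpr (rk_mid (mid_of_md3 m2)))
  have J2 := hR M b (C i2) (s i2) α h (hC.irr i2) o2 hα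
  obtain ⟨β, hβ, β', hβ', hββ⟩ := hN M b (C i3) (s i3) h (hC.irr i3)
    ((hRK M b (C i3) (s i3) (τ i3) h (hC.irr i3) (hC.ty i3) 2).mpr (rk_mid m3))
  have J3 := JR_of_JB (hJ1 M b (C i3) β h (AddSubgroup.subset_closure hβ)
    ((hN2 M b (C i3) (s i3) h (hC.irr i3)).1 β hβ))
  have hk3 : Rk (C i2) 3 :=
    (hRK M b (C i2) (s i2) (τ i2) h (hC.irr i2) (hC.ty i2) 3).mpr (rk_md3 m2)
  have s2 := (hC.irr i2).pos
  refine use_par hX hP h hC hb (i2, α, 1, PR b (C i2) (s i2) α)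
    [(i1, r, 2, fun ρ _ => ρ = 2 * s i1), (i3, β, 1, fun _ _ => True)] α (s i2) (2 * s i2)
    ?_ ?_ ?_ (AddSubgroup.subset_closure hα) s2.ne'
    ⟨α', AddSubgroup.subset_closure hα', ?_⟩
    ⟨(i3, β, 1, fun _ _ => True), by simp, β', AddSubgroup.subset_closure hβ', ?_⟩ ?_
    (par_self h (hC.irr i2) o2 hα) (dvd_refl _) ?_
  · simp only [List.map_cons, List.map_nil, List.nodup_cons, List.mem_cons, List.not_mem_nil,
      or_false, not_or, List.nodup_nil, and_true, not_false_eq_true]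
    exact ⟨⟨h12.symm, h23⟩, h13⟩
  · intro a ha
    simp only [List.mem_cons, List.not_mem_nil, or_false] at ha
    rcases ha with rfl | rfl | rfl
    · exact ⟨AddSubgroup.subset_closure hα, J2⟩
    · exact ⟨hr, J1⟩
    · exact ⟨AddSubgroup.subset_closure hβ, J3⟩
  · norm_num
  · rw [hαα]; exact o2
  · rw [hββ]; exact o3
  · simp only [List.map_cons, List.map_nil, List.sum_cons, List.sum_nil, add_zero]
    obtain ⟨c, hc⟩ := hrn
    rw [(hC.irr i2).norm α hα, (hC.irr i3).norm β hβ, hc]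
    omega
  · rintro T0 ρ _ _ _ (⟨_, h1 | h1⟩ | ⟨_, _, _, h1⟩) _
    · rw [h1, (hC.irr i2).norm α hα, sub_self]
      exact dvd_zero _
    · rw [h1, neg_left h, (hC.irr i2).norm α hα]
      exact ⟨-1, by ring⟩
    · exact absurd hk3 h1

theorem k_be2s : X_CMP → X_F1 → J_ROOT → J_EV → E_NON → T_RK → K_BE2S := by
  intro hX hP hR hE hN hRK M _ b k C s τ h hC hb i0 i1 i2 o0 b0 e1 r1 o2 t2
  have n01 : i1 ≠ i0 := by rintro rfl; exact o0 e1
  have n12 : i1 ≠ i2 := by rintro rfl; exact o2 e1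
  have n02 : i0 ≠ i2 := by
    rintro rfl
    rw [t2] at b0
    exact absurd (show 4 ≤ 1 from b0) (by norm_num)
  have hk0 : ∀ j, j ≤ 4 → Rk (C i0) j := fun j hj =>
    (hRK M b (C i0) (s i0) (τ i0) h (hC.irr i0) (hC.ty i0) j).mpr (hj.trans (rk_big (hC.ty i0) b0))
  obtain ⟨β, hβ, β', hβ', hββ⟩ := hN M b (C i0) (s i0) h (hC.irr i0) (hk0 2 (by norm_num))
  have J0 := hR M b (C i0) (s i0) β h (hC.irr i0) o0 hβ
  obtain ⟨α, hα, α', hα', hαα⟩ := hN M b (C i1) (s i1) h (hC.irr i1)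
    ((hRK M b (C i1) (s i1) (τ i1) h (hC.irr i1) (hC.ty i1) 2).mpr r1.ge)
  have J1 := hE M b (C i1) (s i1) α h (hC.irr i1) e1 hα
  obtain ⟨γ, hγ⟩ := (hC.irr i2).ne
  have J2 := hR M b (C i2) (s i2) γ h (hC.irr i2) o2 hγ
  have s1 := (hC.irr i1).pos
  refine use_f1 hX hP h hC hb i1 α α' 2 _
    [(i0, β, 1, PR b (C i0) (s i0) β), (i2, γ, 1, PR b (C i2) (s i2) γ)]
    (if s i1 = 2 * s i0 then 2 * s i1 else 0) ?_ J1 ?_ ?_ e1 hα hα' hαα
    ⟨(i0, β, 1, PR b (C i0) (s i0) β), List.mem_cons_self, β', AddSubgroup.subset_closure hβ', ?_⟩ ?_ ?_ ?_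
  · simp only [List.map_cons, List.map_nil, List.nodup_cons, List.mem_cons, List.not_mem_nil,
      or_false, not_or, List.nodup_nil, and_true, not_false_eq_true]
    exact ⟨⟨n01, n12⟩, n02⟩
  · intro a ha
    simp only [List.mem_cons, List.not_mem_nil, or_false] at ha
    rcases ha with rfl | rfl
    · exact ⟨AddSubgroup.subset_closure hβ, J0⟩
    · exact ⟨AddSubgroup.subset_closure hγ, J2⟩
  · norm_num
  · rw [hββ]; exact o0
  · simp only [List.map_cons, List.map_nil, List.sum_cons, List.sum_nil, add_zero]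
    rw [(hC.irr i0).norm β hβ, (hC.irr i2).norm γ hγ]
    omega
  · split_ifs
    · exact dvd_refl _
    · exact dvd_zero _
  · rintro T0 ρ _ _ _ hT hl
    obtain ⟨t0, ht0⟩ := hl _ List.mem_cons_self
    have hρ : ρ = 2 * s i0 := by
      rcases ht0 with ht0 | ht0
      · exact ht0.1
      · exact absurd (hk0 3 (by norm_num)) ht0.2.2.2
    rcases hT with ⟨h1, h2⟩ | ⟨h1, h2, _⟩
    · rw [if_pos (by rw [← h1, hρ])]
      rcases h2 with h2 | h2
      · rw [h2, (hC.irr i1).norm α hα, sub_self]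
        exact dvd_zero _
      · rw [h2, neg_left h, (hC.irr i1).norm α hα]
        exact ⟨-1, by ring⟩
    · rw [if_neg (by omega), h2, sub_self]
      exact dvd_zero _

end Pool.Agent.CN2.H75

end
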