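import Pool.Agent.Helper25_CN2.Stmts

/-!
Squad CN2: how X_CMP is combined with X_PAR, X_ALN and X_F1 (used by several modules of Part K).
-/

noncomputable section

namespace Pool.Agent.CN2.H75

open Pool.Agent.H25Cong Pool.Agent.CON Pool.Agent.CN2

section

variable {M : Type} [AddCommGroup M] {b : M → M → ℤ}

theorem add_right (h : PD b) (x y z : M) : b x (y + z) = b x y + b x z := by
  rw [h.symm x (y + z), h.add_left, h.symm y x, h.symm z x]

/-- the functional of y -/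
def fn (h : PD b) (y : M) : M →+ ℤ := AddMonoidHom.mk' (fun x => b x y) fun u v => h.add_left u v y

theorem fn_apply (h : PD b) (y x : M) : fn h y x = b x y := rfl

theorem zero_left (h : PD b) (y : M) : b 0 y = 0 := map_zero (fn h y)

theorem zero_right (h : PD b) (y : M) : b y 0 = 0 := by rw [h.symm, zero_left h]

theorem neg_left (h : PD b) (x y : M) : b (-x) y = -b x y := map_neg (fn h y) x

theorem neg_right (h : PD b) (x y : M) : b x (-y) = -b x y := by
  rw [h.symm, neg_left h, h.symm]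

theorem sub_left (h : PD b) (x y z : M) : b (x - y) z = b x z - b y z := map_sub (fn h z) x y

theorem sub_right (h : PD b) (x y z : M) : b x (y - z) = b x y - b x z := by
  rw [h.symm, sub_left h, h.symm y, h.symm z]

theorem zsmul_left (h : PD b) (k : ℤ) (x y : M) : b (k • x) y = k * b x y := by
  have := map_zsmul (fn h y) k x
  rw [fn_apply, fn_apply] at this
  rw [this, smul_eq_mul]

theorem zsmul_right (h : PD b) (k : ℤ) (x y : M) : b x (k • y) = k * b x y := by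
  rw [h.symm, zsmul_left h, h.symm]

theorem sum_left (h : PD b) {ι : Type} (s : Finset ι) (f : ι → M) (y : M) :
    b (∑ i ∈ s, f i) y = ∑ i ∈ s, b (f i) y := map_sum (fn h y) f s

theorem closure_orth (h : PD b) {C D : Set M} (ho : ∀ α ∈ C, ∀ β ∈ D, b α β = 0) :
    ∀ x ∈ AddSubgroup.closure C, ∀ y ∈ AddSubgroup.closure D, b x y = 0 := by
  intro x hx y hy
  induction hx using AddSubgroup.closure_induction with
  | mem x hx =>
    induction hy using AddSubgroup.closure_induction with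
    | mem y hy => exact ho x hx y hy
    | zero => exact zero_right h x
    | add y z _ _ h1 h2 => rw [add_right h, h1, h2, add_zero]
    | neg y _ h1 => rw [neg_right h, h1, neg_zero]
  | zero => exact zero_left h y
  | add x z _ _ h1 h2 => rw [h.add_left, h1, h2, add_zero]
  | neg x _ h1 => rw [neg_left h, h1, neg_zero]

variable {k : ℕ} {C : Fin k → Set M} {s : Fin k → ℤ} {τ : Fin k → Ty}

theorem ct_orth (h : PD b) (hC : CT b C s τ) {i j : Fin k} (hij : i ≠ j) {x y : M}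
    (hx : x ∈ AddSubgroup.closure (C i)) (hy : y ∈ AddSubgroup.closure (C j)) : b x y = 0 :=
  closure_orth h (fun α hα β hβ => hC.orth i j hij α hα β hβ) x hx y hy

/-- the product with a vector of one component -/
theorem b_sum (h : PD b) (hC : CT b C s τ) {T : Fin k → M}
    (hT : ∀ i, T i ∈ AddSubgroup.closure (C i)) (j : Fin k) {y : M}
    (hy : y ∈ AddSubgroup.closure (C j)) : b (∑ i, T i) y = b (T j) y := by
  rw [sum_left h, Finset.sum_eq_single j]
  · intro i _ hi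
    exact ct_orth h hC hi (hT i) hy
  · intro hj
    exact absurd (Finset.mem_univ j) hj

/-- the product of a sum over a list with a vector of a component which does not occur -/
theorem b_list_not (h : PD b) (hC : CT b C s τ) (l : List (Tch k M))
    (hl : ∀ a ∈ l, a.2.1 ∈ AddSubgroup.closure (C a.1)) (j : Fin k) (hj : ∀ a ∈ l, a.1 ≠ j) {y : M}
    (hy : y ∈ AddSubgroup.closure (C j)) : b (l.map fun a => a.2.1).sum y = 0 := by
  induction l with
  | nil => exact zero_left h y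
  | cons a l ih =>
    rw [List.map_cons, List.sum_cons, h.add_left,
      ct_orth h hC (hj a List.mem_cons_self) (hl a List.mem_cons_self) hy,
      ih (fun c hc => hl c (List.mem_cons_of_mem a hc)) (fun c hc => hj c (List.mem_cons_of_mem a hc)),
      add_zero]

/-- the product of a sum over a list with a vector of one of the components -/
theorem b_list (h : PD b) (hC : CT b C s τ) (l : List (Tch k M))
    (hn : (l.map fun a => a.1).Nodup) (hl : ∀ a ∈ l, a.2.1 ∈ AddSubgroup.closure (C a.1))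
    {a : Tch k M} (ha : a ∈ l) {y : M} (hy : y ∈ AddSubgroup.closure (C a.1)) :
    b (l.map fun a => a.2.1).sum y = b a.2.1 y := by
  induction l with
  | nil => cases ha
  | cons c l ih =>
    rw [List.map_cons, List.nodup_cons] at hn
    rw [List.map_cons, List.sum_cons, h.add_left]
    rcases List.mem_cons.mp ha with rfl | ha'
    · rw [b_list_not h hC l (fun d hd => hl d (List.mem_cons_of_mem _ hd)) a.1, add_zero]
      · intro d hd he
        exact hn.1 (List.mem_map.mpr ⟨d, hd, he⟩)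
      · exact hy
    · rw [ih hn.2 (fun d hd => hl d (List.mem_cons_of_mem _ hd)) ha',
        ct_orth h hC _ (hl c List.mem_cons_self) hy, zero_add]
      intro he
      exact hn.1 (List.mem_map.mpr ⟨a, ha', he.symm⟩)

/-- the norm of a sum over a list -/
theorem norm_list (h : PD b) (hC : CT b C s τ) (l : List (Tch k M))
    (hn : (l.map fun a => a.1).Nodup) (hl : ∀ a ∈ l, a.2.1 ∈ AddSubgroup.closure (C a.1)) :
    b (l.map fun a => a.2.1).sum (l.map fun a => a.2.1).sum =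
      (l.map fun a => b a.2.1 a.2.1).sum := by
  induction l with
  | nil => exact zero_left h _
  | cons c l ih =>
    rw [List.map_cons, List.nodup_cons] at hn
    have hl' : ∀ a ∈ l, a.2.1 ∈ AddSubgroup.closure (C a.1) :=
      fun d hd => hl d (List.mem_cons_of_mem _ hd)
    have h0 : b (l.map fun a => a.2.1).sum c.2.1 = 0 := by
      apply b_list_not h hC l hl' c.1 _ (hl c List.mem_cons_self)
      intro d hd he
      exact hn.1 (List.mem_map.mpr ⟨d, hd, he⟩)
    have h0' : b c.2.1 (l.map fun a => a.2.1).sum = 0 := by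
      rw [h.symm]
      exact h0
    rw [List.map_cons, List.sum_cons, List.map_cons, List.sum_cons, h.add_left, add_right h,
      add_right h, ih hn.2 hl', h0, h0']
    ring

/-- the other components -/
def oth (C : Fin k → Set M) (i0 : Fin k) : AddSubgroup M :=
  AddSubgroup.closure (⋃ i ∈ {i : Fin k | i ≠ i0}, C i)

theorem mem_oth {i i0 : Fin k} (hi : i ≠ i0) {x : M} (hx : x ∈ AddSubgroup.closure (C i)) :
    x ∈ oth C i0 := by
  refine AddSubgroup.closure_mono ?_ hx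
  intro y hy
  exact Set.mem_biUnion hi hy

theorem oth_orth (h : PD b) (hC : CT b C s τ) (i0 : Fin k) :
    ∀ y ∈ AddSubgroup.closure (C i0), ∀ z ∈ oth C i0, b y z = 0 := by
  apply closure_orth h
  intro α hα β hβ
  obtain ⟨i, hi, hβ'⟩ := Set.mem_iUnion₂.mp hβ
  exact hC.orth i0 i (fun he => hi he.symm) α hα β hβ'

theorem oth_sup (hC : CT b C s τ) (i0 : Fin k) :
    AddSubgroup.closure (C i0) ⊔ oth C i0 = ⊤ := by
  rw [eq_top_iff]
  intro x _
  have hx := hC.gen x
  refine (AddSubgroup.closure_le _).mpr ?_ hx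
  intro y hy
  obtain ⟨i, hi⟩ := Set.mem_iUnion.mp hy
  by_cases hi0 : i = i0
  · subst hi0
    exact AddSubgroup.mem_sup_left (AddSubgroup.subset_closure hi)
  · exact AddSubgroup.mem_sup_right (mem_oth hi0 (AddSubgroup.subset_closure hi))

theorem list_oth {i0 : Fin k} (l : List (Tch k M))
    (hl : ∀ a ∈ l, a.2.1 ∈ AddSubgroup.closure (C a.1)) (hj : ∀ a ∈ l, a.1 ≠ i0) :
    (l.map fun a => a.2.1).sum ∈ oth C i0 := by
  induction l with
  | nil => exact (oth C i0).zero_mem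
  | cons a l ih =>
    rw [List.map_cons, List.sum_cons]
    exact (oth C i0).add_mem (mem_oth (hj a List.mem_cons_self) (hl a List.mem_cons_self))
      (ih (fun c hc => hl c (List.mem_cons_of_mem a hc))
        (fun c hc => hj c (List.mem_cons_of_mem a hc)))

/-- the new roots, by X_CMP: the part in the first component -/
theorem new_first (hX : X_CMP) (h : PD b) (hC : CT b C s τ) {a0 : Tch k M} {l : List (Tch k M)}
    (hn : ((a0 :: l).map fun a => a.1).Nodup)
    (hl : ∀ a ∈ a0 :: l, a.2.1 ∈ AddSubgroup.closure (C a.1) ∧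
      JR b (AddSubgroup.closure (C a.1)) a.2.1 a.2.2.1 a.2.2.2)
    (hs : 4 ≤ ((a0 :: l).map fun a => a.2.2.1).sum) {ω t : M} {ρ : ℤ}
    (hω : ω ∈ AddSubgroup.closure (C a0.1))
    (ht : NewR b (a0.2.1 + (l.map fun a => a.2.1).sum) t ρ) :
    ∃ T0, b t ω = b T0 ω ∧ T0 ∈ AddSubgroup.closure (C a0.1) ∧
      AD b (AddSubgroup.closure (C a0.1)) a0.2.1 T0 ρ ∧
      b T0 T0 = a0.2.2.1 * ρ ∧ a0.2.2.2 ρ T0 ∧ ∀ a ∈ l, ∃ t', a.2.2.2 ρ t' := by
  have ht' : NewR b ((a0 :: l).map fun a => a.2.1).sum t ρ := by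
    rw [List.map_cons, List.sum_cons]
    exact ht
  obtain ⟨_, T, rfl, hT, _, hT2⟩ := hX M b k C s τ (a0 :: l) t ρ h hC hn hl hs ht'
  obtain ⟨h1, h2, h3⟩ := hT2 a0 List.mem_cons_self
  exact ⟨T a0.1, b_sum h hC hT _ hω, hT _, h1, h2, h3,
    fun a ha => ⟨_, (hT2 a (List.mem_cons_of_mem _ ha)).2.2⟩⟩

/-- X_PAR for a list of touched components: the first one is the distinguished one -/
theorem use_par (hX : X_CMP) (hP : X_PAR) (h : PD b) (hC : CT b C s τ) (hb : ¬ Bad b)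
    (a0 : Tch k M) (l : List (Tch k M)) (ω : M) (μ e0 : ℤ)
    (hn : ((a0 :: l).map fun a => a.1).Nodup)
    (hl : ∀ a ∈ a0 :: l, a.2.1 ∈ AddSubgroup.closure (C a.1) ∧
      JR b (AddSubgroup.closure (C a.1)) a.2.1 a.2.2.1 a.2.2.2)
    (hs : 4 ≤ ((a0 :: l).map fun a => a.2.2.1).sum)
    (hω : ω ∈ AddSubgroup.closure (C a0.1)) (hμ : μ ≠ 0)
    (ho : ∃ y ∈ AddSubgroup.closure (C a0.1), ¬ (2 : ℤ) ∣ b a0.2.1 y)
    (ho' : ∃ a ∈ l, ∃ y ∈ AddSubgroup.closure (C a.1), ¬ (2 : ℤ) ∣ b a.2.1 y)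
    (h4 : (4 : ℤ) ∣ ((a0 :: l).map fun a => b a.2.1 a.2.1).sum)
    (hd : ∀ y ∈ AddSubgroup.closure (C a0.1), 2 * μ ∣ b y ω - μ * b y a0.2.1)
    (he : 2 * μ ∣ e0)
    (hN : ∀ (T0 : M) (ρ : ℤ), T0 ∈ AddSubgroup.closure (C a0.1) →
      AD b (AddSubgroup.closure (C a0.1)) a0.2.1 T0 ρ → b T0 T0 = a0.2.2.1 * ρ →
      a0.2.2.2 ρ T0 → (∀ a ∈ l, ∃ t, a.2.2.2 ρ t) → 4 * μ ∣ b T0 ω - e0) : False := by
  have hn' := hn
  rw [List.map_cons, List.nodup_cons] at hn'
  have hj : ∀ a ∈ l, a.1 ≠ a0.1 := fun a ha he => hn'.1 (List.mem_map.mpr ⟨a, ha, he⟩)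
  have hl1 : ∀ a ∈ a0 :: l, a.2.1 ∈ AddSubgroup.closure (C a.1) := fun a ha => (hl a ha).1
  have hl2 : ∀ a ∈ l, a.2.1 ∈ AddSubgroup.closure (C a.1) :=
    fun a ha => hl1 a (List.mem_cons_of_mem _ ha)
  apply hb
  refine hP M b (AddSubgroup.closure (C a0.1)) (oth C a0.1) a0.2.1 (l.map fun a => a.2.1).sum ω μ
    e0 h (oth_orth h hC _) (oth_sup hC _) (hl1 a0 List.mem_cons_self) (list_oth l hl2 hj) hω hμ ho
    ?_ ?_ hd he ?_
  · obtain ⟨a, ha, y, hy, hy2⟩ := ho'
    refine ⟨y, mem_oth (hj a ha) hy, ?_⟩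
    rw [b_list h hC l hn'.2 hl2 ha hy]
    exact hy2
  · have h1 := norm_list h hC (a0 :: l) hn hl1
    rw [List.map_cons, List.sum_cons] at h1
    rw [h1]
    exact h4
  · intro t ρ ht
    obtain ⟨T0, e1, h1, h2, h3, h4, h5⟩ := new_first hX h hC hn hl hs hω ht
    rw [e1]
    exact hN T0 ρ h1 h2 h3 h4 h5

/-- X_F1 for a list of touched components: the first one is the even component of rank at least 2
-/
theorem use_f1 (hX : X_CMP) (hP : X_F1) (h : PD b) (hC : CT b C s τ) (hb : ¬ Bad b)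
    (i0 : Fin k) (α β : M) (j0 : ℤ) (P0 : ℤ → M → Prop) (l : List (Tch k M)) (e0 : ℤ)
    (hn : (i0 :: (l.map fun a => a.1)).Nodup)
    (hJ : JR b (AddSubgroup.closure (C i0)) α j0 P0)
    (hl : ∀ a ∈ l, a.2.1 ∈ AddSubgroup.closure (C a.1) ∧
      JR b (AddSubgroup.closure (C a.1)) a.2.1 a.2.2.1 a.2.2.2)
    (hs : 4 ≤ j0 + (l.map fun a => a.2.2.1).sum) (hs2 : (2 : ℤ) ∣ s i0)
    (hα : α ∈ C i0) (hβ : β ∈ C i0) (hαβ : b α β = s i0)
    (ho' : ∃ a ∈ l, ∃ y ∈ AddSubgroup.closure (C a.1), ¬ (2 : ℤ) ∣ b a.2.1 y)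
    (h4 : (4 : ℤ) ∣ (l.map fun a => b a.2.1 a.2.1).sum)
    (he : 2 * s i0 ∣ e0)
    (hN : ∀ (T0 : M) (ρ : ℤ), T0 ∈ AddSubgroup.closure (C i0) →
      AD b (AddSubgroup.closure (C i0)) α T0 ρ → b T0 T0 = j0 * ρ →
      P0 ρ T0 → (∀ a ∈ l, ∃ t, a.2.2.2 ρ t) → 4 * s i0 ∣ b T0 α - e0) : False := by
  have hn' := hn
  rw [List.nodup_cons] at hn'
  have hj : ∀ a ∈ l, a.1 ≠ i0 := fun a ha he => hn'.1 (List.mem_map.mpr ⟨a, ha, he⟩)
  have hl2 : ∀ a ∈ l, a.2.1 ∈ AddSubgroup.closure (C a.1) := fun a ha => (hl a ha).1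
  have hα' : α ∈ AddSubgroup.closure (C i0) := AddSubgroup.subset_closure hα
  have hl' : ∀ a ∈ ((i0, α, j0, P0) : Tch k M) :: l, a.2.1 ∈ AddSubgroup.closure (C a.1) ∧
      JR b (AddSubgroup.closure (C a.1)) a.2.1 a.2.2.1 a.2.2.2 := by
    intro a ha
    rcases List.mem_cons.mp ha with rfl | ha
    · exact ⟨hα', hJ⟩
    · exact hl a ha
  have h0 := oth_orth h hC i0
  apply hb
  refine hP M b (oth C i0) (C i0) (s i0) (l.map fun a => a.2.1).sum α β e0 h (hC.irr i0) hs2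
    ?_ ?_ (list_oth l hl2 hj) hα hβ hαβ ?_ ?_ he ?_
  · intro y hy z hz
    rw [h.symm]
    exact h0 z (AddSubgroup.subset_closure hz) y hy
  · rw [sup_comm]
    exact oth_sup hC i0
  · obtain ⟨a, ha, y, hy, hy2⟩ := ho'
    refine ⟨y, mem_oth (hj a ha) hy, ?_⟩
    rw [b_list h hC l hn'.2 hl2 ha hy]
    exact hy2
  · have h1 := norm_list h hC l hn'.2 hl2
    have h2 : b (l.map fun a => a.2.1).sum α = 0 := b_list_not h hC l hl2 i0 hj hα'
    have h3 : (4 : ℤ) ∣ b α α := by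
      rw [(hC.irr i0).norm α hα]
      obtain ⟨c, hc⟩ := hs2
      rw [hc]
      exact ⟨c, by ring⟩
    have e : b ((l.map fun a => a.2.1).sum + α) ((l.map fun a => a.2.1).sum + α) =
        (l.map fun a => b a.2.1 a.2.1).sum + b α α := by
      rw [h.add_left, add_right h, add_right h, h1, h2, h.symm α, h2]
      ring
    rw [e]
    exact dvd_add h4 h3
  · intro t ρ ht
    have ht' : NewR b (α + (l.map fun a => a.2.1).sum) t ρ := by
      rw [add_comm]
      exact ht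
    obtain ⟨T0, e1, h1, h2, h3, h4, h5⟩ := new_first (a0 := (i0, α, j0, P0)) hX h hC
      (by rw [List.map_cons]; exact hn) hl' (by rw [List.map_cons, List.sum_cons]; exact hs)
      hα' ht'
    rw [e1]
    exact hN T0 ρ h1 h2 h3 h4 h5

end

/-- X_ALN for a list of touched components: the first one is the only odd one -/
theorem use_aln {M : Type} [AddCommGroup M] {b : M → M → ℤ} {k : ℕ} {C : Fin k → Set M}
    {s : Fin k → ℤ} {τ : Fin k → Ty} (hX : X_CMP) (hP : X_ALN) (h : PD b) (hC : CT b C s τ)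
    (hb : ¬ Bad b) (a0 : Tch k M) (l : List (Tch k M)) (ω : M) (μ e0 : ℤ)
    (hn : ((a0 :: l).map fun a => a.1).Nodup)
    (hl : ∀ a ∈ a0 :: l, a.2.1 ∈ AddSubgroup.closure (C a.1) ∧
      JR b (AddSubgroup.closure (C a.1)) a.2.1 a.2.2.1 a.2.2.2)
    (hs : 4 ≤ ((a0 :: l).map fun a => a.2.2.1).sum)
    (hω : ω ∈ AddSubgroup.closure (C a0.1)) (hμ : μ ≠ 0)
    (ho : ∃ y ∈ AddSubgroup.closure (C a0.1), ¬ (2 : ℤ) ∣ b a0.2.1 y)
    (hev : ∀ a ∈ l, ∀ y ∈ AddSubgroup.closure (C a.1), (2 : ℤ) ∣ b a.2.1 y)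
    (h4 : (4 : ℤ) ∣ ((a0 :: l).map fun a => b a.2.1 a.2.1).sum)
    (hd : ∀ y ∈ AddSubgroup.closure (C a0.1), 2 * μ ∣ b y ω - μ * b y a0.2.1)
    (he : 4 * μ ∣ e0)
    (hN : ∀ (T0 : M) (ρ : ℤ), T0 ∈ AddSubgroup.closure (C a0.1) →
      AD b (AddSubgroup.closure (C a0.1)) a0.2.1 T0 ρ → b T0 T0 = a0.2.2.1 * ρ →
      a0.2.2.2 ρ T0 → (∀ a ∈ l, ∃ t, a.2.2.2 ρ t) → 8 * μ ∣ b T0 ω - e0)
    (hO : ∀ v ∈ AddSubgroup.closure (C a0.1), v ≠ 0 → (2 : ℤ) ∣ b a0.2.1 v →
      (∀ y ∈ AddSubgroup.closure (C a0.1), (2 : ℤ) ∣ b a0.2.1 y → b v v ∣ 2 * b v y) →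
      4 * μ ∣ b v ω) : False := by
  have hn' := hn
  rw [List.map_cons, List.nodup_cons] at hn'
  have hj : ∀ a ∈ l, a.1 ≠ a0.1 := fun a ha he => hn'.1 (List.mem_map.mpr ⟨a, ha, he⟩)
  have hl1 : ∀ a ∈ a0 :: l, a.2.1 ∈ AddSubgroup.closure (C a.1) := fun a ha => (hl a ha).1
  have hl2 : ∀ a ∈ l, a.2.1 ∈ AddSubgroup.closure (C a.1) :=
    fun a ha => hl1 a (List.mem_cons_of_mem _ ha)
  apply hb
  refine hP M b (AddSubgroup.closure (C a0.1)) (oth C a0.1) a0.2.1 (l.map fun a => a.2.1).sum ω μ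
    e0 h (oth_orth h hC _) (oth_sup hC _) (hl1 a0 List.mem_cons_self) (list_oth l hl2 hj) hω hμ ho
    ?_ ?_ hd he ?_ hO
  · -- the form with the generators of the other components is even
    have key : ∀ i (y : M), y ∈ C i → (2 : ℤ) ∣ b (l.map fun a => a.2.1).sum y := by
      intro i y hy
      have hy' : y ∈ AddSubgroup.closure (C i) := AddSubgroup.subset_closure hy
      by_cases hi : ∃ a ∈ l, a.1 = i
      · obtain ⟨a, ha, rfl⟩ := hi
        rw [b_list h hC l hn'.2 hl2 ha hy']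
        exact hev a ha y hy'
      · rw [b_list_not h hC l hl2 i (fun a ha he => hi ⟨a, ha, he⟩) hy']
        exact dvd_zero _
    intro y hy
    induction hy using AddSubgroup.closure_induction with
    | mem y hy =>
      obtain ⟨i, _, hy'⟩ := Set.mem_iUnion₂.mp hy
      exact key i y hy'
    | zero => rw [zero_right h]; exact dvd_zero _
    | add y z _ _ h1 h2 => rw [add_right h]; exact dvd_add h1 h2
    | neg y _ h1 => rw [neg_right h]; exact (dvd_neg).mpr h1
  · have h1 := norm_list h hC (a0 :: l) hn hl1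
    rw [List.map_cons, List.sum_cons] at h1
    rw [h1]
    exact h4
  · intro t ρ ht
    obtain ⟨T0, e1, h1, h2, h3, h4, h5⟩ := new_first hX h hC hn hl hs hω ht
    rw [e1]
    exact hN T0 ρ h1 h2 h3 h4 h5

/-- JB is JR without information -/
theorem JR_of_JB {M : Type} [AddCommGroup M] {b : M → M → ℤ} {C : Set M} {x : M} {j : ℤ}
    (h : JB b C x j) : JR b (AddSubgroup.closure C) x j fun _ _ => True := by
  rintro t ρ ⟨⟨z, hz, rfl⟩, h1, h2, h3⟩
  exact ⟨h z hz ρ h1 h2 h3, fun _ => trivial⟩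

end Pool.Agent.CN2.H75

end
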